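import Pool.Agent.Lib.MP_249d2a_co.HB.F2

/-!
# Weak zero-sum-free sets in `Z_{n₁} × Z_{n₂}`: the maximum for all `n₂ ≥ C(n₁)`

For `n₁ ≥ 4` let `D` be the set of the divisors `d` of `n₂` with `d ≥ n₁ + 2` and `d mod n₁ ≥ 2`, and for `d ∈ D`
let `f d = ⌊(d - 2 + δ) / ⌊d / n₁⌋⌋`, where `δ = 1` if `p₀ (d mod n₁) < n₁` (`p₀` the least prime factor of `n₁`) and
`δ = 0` otherwise.  There is `C` (depending on `n₁`) such that for all `n₂ ≥ C` divisible by `n₁`: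

* if `D` is not empty, the largest subset of `Z_{n₁} × Z_{n₂}` without `n₂` distinct elements of sum `0` has
  `n₂ + max_{d ∈ D} f d` elements;
* if `D` is empty, it has `n₂ + n₁ - 1` or `n₂ + n₁` elements;
* `D` is not empty if `n₁` is not a prime power, and also if `n₁ = p ^ c`, `c ≥ 2`, and the largest divisor of `n₂`
  prime to `p` is greater than `p`.

The proof uses Kneser's theorem, Roth's theorem for finite abelian groups (Mathlib), and an isoperimetric argument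
in the style of Hamidoune.
-/

set_option autoImplicit false

open Finset

namespace Pool.Agent.Results.MP_249d2a_co.AllLargeN2

/-- The sizes of the subsets `A` of `Z_{n₁} × Z_{n₂}` in which no `n₂` distinct elements have sum `0`. -/
def sizes (n₁ n₂ : ℕ) : Set ℕ :=
  {k | ∃ A : Finset (ZMod n₁ × ZMod n₂), A.card = k ∧ ∀ B ⊆ A, B.card = n₂ → ∑ x ∈ B, x ≠ 0}

/-- The divisors `d` of `n₂` with `d ≥ n₁ + 2` and `d mod n₁ ≥ 2`. -/
def D (n₁ n₂ : ℕ) : Finset ℕ := n₂.divisors.filter fun d => n₁ + 2 ≤ d ∧ 2 ≤ d % n₁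

/-- The value of a divisor `d`. -/
def f (n₁ d : ℕ) : ℕ := (d - 2 + (if n₁.minFac * (d % n₁) < n₁ then 1 else 0)) / (d / n₁)

theorem isGreatest_tau {n₁ n₂ : ℕ} [NeZero n₁] [NeZero n₂] :
    IsGreatest (sizes n₁ n₂) (HB.tau (ZMod n₁ × ZMod n₂) n₂) := by
  have h1 : 1 ≤ n₂ := Nat.one_le_iff_ne_zero.2 (NeZero.ne n₂)
  constructor
  · exact (HB.le_tau_iff (G := ZMod n₁ × ZMod n₂) h1).1 le_rfl
  · rintro k ⟨A, hA, hA'⟩
    exact (HB.le_tau_iff (G := ZMod n₁ × ZMod n₂) h1).2 ⟨A, hA, hA'⟩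

/-- **Theorem.** -/
theorem result (n₁ : ℕ) (h₁ : 4 ≤ n₁) : ∃ C : ℕ, ∀ n₂ : ℕ, C ≤ n₂ → n₁ ∣ n₂ →
    (∀ h : (D n₁ n₂).Nonempty, IsGreatest (sizes n₁ n₂) (n₂ + (D n₁ n₂).sup' h (f n₁))) ∧
    (D n₁ n₂ = ∅ → IsGreatest (sizes n₁ n₂) (n₂ + n₁ - 1) ∨
      IsGreatest (sizes n₁ n₂) (n₂ + n₁)) ∧
    (¬ IsPrimePow n₁ → (D n₁ n₂).Nonempty) ∧
    (∀ p c : ℕ, p.Prime → 2 ≤ c → n₁ = p ^ c → p < n₂ / p ^ (n₂.factorization p) →
      (D n₁ n₂).Nonempty) := by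
  obtain ⟨C1, hC1⟩ := HB.main_A h₁
  obtain ⟨C2, hC2⟩ := HB.main_B h₁
  have h3 : ∃ C3 : ℕ, ∀ n, C3 ≤ n → n₁ ∣ n → ¬ IsPrimePow n₁ → (D n₁ n).Nonempty := by
    by_cases h : IsPrimePow n₁
    · exact ⟨0, fun n _ _ h' => absurd h h'⟩
    · obtain ⟨C3, hC3⟩ := HB.dset_of_not_primePow h₁ h
      exact ⟨C3, fun n h5 h6 _ => hC3 n h5 h6⟩
  obtain ⟨C3, hC3⟩ := h3
  refine ⟨C1 + C2 + C3 + 1, fun n₂ hn hd => ?_⟩
  have : NeZero n₁ := ⟨by omega⟩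
  have : NeZero n₂ := ⟨by omega⟩
  have hD : D n₁ n₂ = HB.Dset n₁ n₂ := rfl
  have hf : f n₁ = HB.fv n₁ := rfl
  refine ⟨fun h => ?_, fun h => ?_, hC3 n₂ (by omega) hd, fun p c hp hc hq hlt => ?_⟩
  · have h4 := hC1 n₂ (by omega) hd (hD ▸ h)
    have h5 : (D n₁ n₂).sup' h (f n₁) = (HB.Dset n₁ n₂).sup (HB.fv n₁) := by
      rw [Finset.sup'_eq_sup, hD, hf]
    rw [h5, ← h4]
    exact isGreatest_tau
  · obtain ⟨h4, h5⟩ := hC2 n₂ (by omega) hd (by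
      rw [← hD, h]
      exact Finset.not_nonempty_empty)
    have h6 := isGreatest_tau (n₁ := n₁) (n₂ := n₂)
    rcases Nat.lt_or_ge (HB.tau (ZMod n₁ × ZMod n₂) n₂) (n₂ + n₁) with h7 | h7
    · left
      have : HB.tau (ZMod n₁ × ZMod n₂) n₂ = n₂ + n₁ - 1 := by omega
      rw [← this]
      exact h6
    · right
      have : HB.tau (ZMod n₁ × ZMod n₂) n₂ = n₂ + n₁ := by omega
      rw [← this]
      exact h6
  · rw [hD]
    subst hq
    exact HB.dset_prime_pow hp hc (by omega) hd hlt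

end Pool.Agent.Results.MP_249d2a_co.AllLargeN2
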